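import Mathlib

/-!
# The bi-free Wasserstein distance does not satisfy the triangle inequality (MP_fc6efe_an)

We construct three tracially bi-partite systems `S₁`, `S₂`, `S₃` with one left and two right variables and
`W₂(S₁, S₃) > W₂(S₁, S₂) + W₂(S₂, S₃)`.

`S₁ = (3x; 3y, x')` with `x = x'` and `y` independent symmetric signs (everything commutes).
`S₃ = (3 σ_z ⊗ 1; 3 (1 ⊗ σ_x), 1 ⊗ σ_z)` with the maximally entangled state on `M₂ ⊗ M₂`.
`S₂ = (3x; 3y, 0)`, which has the same distribution as `(3 σ_z ⊗ 1; 3 (1 ⊗ σ_x), 0)`.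

Then `W₂(S₁, S₂) ≤ 1` and `W₂(S₂, S₃) ≤ 1`. In every coupling of `S₁` and `S₃` one has
`‖X₁ - X₃‖ = 3 ‖Z₁ - Z₃‖` (as `X = 3 Z` in `L²`), and the mixed moments `φ(YZYZ) = 9` and `φ(YZYZ) = -9`
differ, which gives `‖Y₁ - Y₃‖ + 3 ‖Z₁ - Z₃‖ ≥ 3`, so that `W₂(S₁, S₃)² ≥ 9/2 > 4`.
-/

set_option autoImplicit false

open scoped ComplexOrder

namespace Pool.Agent.Results.MP_fc6efe_an.TriangleFails

/-- The data `(ℒ, ℛ, φ)` which make the unital C*-algebra `A` a left-right, tracially bi-partite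
C*-probability space: commuting unital C*-subalgebras `ℒ`, `ℛ` and a state `φ` on `A` which is tracial
on `ℒ` and tracial on `ℛ`. -/
structure BiSpace (A : Type) [CStarAlgebra A] where
  L : StarSubalgebra ℂ A
  R : StarSubalgebra ℂ A
  φ : A →ₗ[ℂ] ℂ
  closed_L : IsClosed (L : Set A)
  closed_R : IsClosed (R : Set A)
  commute : ∀ x ∈ L, ∀ y ∈ R, x * y = y * x
  unit : φ 1 = 1
  positive : ∀ a, 0 ≤ φ (star a * a)
  tracial_L : ∀ x ∈ L, ∀ y ∈ L, φ (x * y) = φ (y * x)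
  tracial_R : ∀ x ∈ R, ∀ y ∈ R, φ (x * y) = φ (y * x)

/-- A tracially bi-partite system in the space `P`: self-adjoint `X i ∈ ℒ`, `i < n`, and self-adjoint
`Y j ∈ ℛ`, `j < m`. -/
structure SystemIn (n m : ℕ) {A : Type} [CStarAlgebra A] (P : BiSpace A) where
  X : Fin n → A
  Y : Fin m → A
  X_mem : ∀ i, X i ∈ P.L
  Y_mem : ∀ j, Y j ∈ P.R
  X_sa : ∀ i, star (X i) = X i
  Y_sa : ∀ j, star (Y j) = Y j

/-- A tracially bi-partite system with `n` left and `m` right variables, together with its space. -/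
structure BiSystem (n m : ℕ) where
  A : Type
  [inst : CStarAlgebra A]
  P : BiSpace A
  S : SystemIn n m P

attribute [instance] BiSystem.inst

variable {n m : ℕ}

/-- The distribution of a system: the values `φ (Z₁ ⋯ Z_k)` for all words in the variables. -/
noncomputable def dist {A : Type} [CStarAlgebra A] {P : BiSpace A} (S : SystemIn n m P)
    (w : List (Fin n ⊕ Fin m)) : ℂ :=
  P.φ ((w.map (Sum.elim S.X S.Y)).prod)

/-- The systems `S` and `T` (in possibly different spaces) have the same distribution and corresponding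
operators have the same operator norm. -/
def Copy {A B : Type} [CStarAlgebra A] [CStarAlgebra B] {P : BiSpace A} {Q : BiSpace B}
    (S : SystemIn n m P) (T : SystemIn n m Q) : Prop :=
  (∀ w, dist S w = dist T w) ∧ (∀ i, ‖S.X i‖ = ‖T.X i‖) ∧ (∀ j, ‖S.Y j‖ = ‖T.Y j‖)

/-- `‖z‖₂² = φ(z* z)`. -/
noncomputable def sq {A : Type} [CStarAlgebra A] (P : BiSpace A) (z : A) : ℝ :=
  (P.φ (star z * z)).re

/-- The costs of the couplings of `S₁` and `S₂`: all numbers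
`(∑ ‖X'_{i,1} - X'_{i,2}‖₂² + ∑ ‖Y'_{j,1} - Y'_{j,2}‖₂²)^{1/2}`, where `S'₁`, `S'₂` are systems in one
space, copies of `S₁` and of `S₂`. -/
def costs (S₁ S₂ : BiSystem n m) : Set ℝ :=
  {c | ∃ (A : Type) (_ : CStarAlgebra A) (P : BiSpace A) (T₁ T₂ : SystemIn n m P),
    Copy T₁ S₁.S ∧ Copy T₂ S₂.S ∧
    c = Real.sqrt (∑ i, sq P (T₁.X i - T₂.X i) + ∑ j, sq P (T₁.Y j - T₂.Y j))}

/-- The bi-free Wasserstein distance. -/
noncomputable def W₂ (S₁ S₂ : BiSystem n m) : ℝ := sInf (costs S₁ S₂)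

section General

variable {A : Type} [CStarAlgebra A] (P : BiSpace A)

/-- the semi-inner product `φ(star x * y)` -/
@[reducible] noncomputable def core : PreInnerProductSpace.Core ℂ A where
  inner x y := P.φ (star x * y)
  conj_inner_symm x y := by
    have hp := P.positive
    have key : ∀ z, (starRingEnd ℂ) (P.φ (star z * z)) = P.φ (star z * z) := fun z =>
      (Complex.conj_eq_iff_im).2 ((Complex.nonneg_iff.1 (hp z)).2.symm)
    have h1 := key (x + y)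
    have h2 := key (x + Complex.I • y)
    simp only [star_add, star_smul, add_mul, mul_add, map_add, smul_mul_assoc, mul_smul_comm, map_smul,
      smul_eq_mul, map_mul, Complex.conj_I, Complex.star_def, key x, key y, map_neg] at h1 h2
    have hI : Complex.I * Complex.I = -1 := Complex.I_mul_I
    have e1 : (starRingEnd ℂ) (P.φ (star x * y)) + (starRingEnd ℂ) (P.φ (star y * x)) =
        P.φ (star x * y) + P.φ (star y * x) := by linear_combination h1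
    have e2 : -Complex.I * (starRingEnd ℂ) (P.φ (star x * y)) +
        Complex.I * (starRingEnd ℂ) (P.φ (star y * x)) =
        Complex.I * P.φ (star x * y) - Complex.I * P.φ (star y * x) := by
      linear_combination h2
    have e4 : (starRingEnd ℂ) (P.φ (star x * y)) - (starRingEnd ℂ) (P.φ (star y * x)) =
        -P.φ (star x * y) + P.φ (star y * x) := by
      linear_combination Complex.I * e2 + (-(starRingEnd ℂ) (P.φ (star x * y)) +
        (starRingEnd ℂ) (P.φ (star y * x)) - P.φ (star x * y) + P.φ (star y * x)) * (-hI)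
    show (starRingEnd ℂ) (P.φ (star y * x)) = P.φ (star x * y)
    linear_combination (e1 - e4) / 2
  re_inner_nonneg x := (Complex.nonneg_iff.1 (P.positive x)).1
  add_left x y z := by simp [add_mul]
  smul_left x y r := by simp


theorem sq_nonneg (z : A) : 0 ≤ sq P z := (Complex.nonneg_iff.1 (P.positive z)).1

theorem cauchy_schwarz (x y : A) : ‖P.φ (star x * y)‖ ≤ Real.sqrt (sq P x) * Real.sqrt (sq P y) := by
  have h := @InnerProductSpace.Core.norm_inner_le_norm ℂ A _ _ _ (core P) x y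
  exact h

theorem sq_le (z : A) : sq P z ≤ ‖z‖ ^ 2 := by
  let := CStarAlgebra.spectralOrder A
  have := CStarAlgebra.spectralOrderedRing A
  have h := CStarAlgebra.star_mul_le_algebraMap_norm_sq (a := z)
  have h2 : 0 ≤ algebraMap ℝ A (‖z‖ ^ 2) - star z * z := sub_nonneg.2 h
  obtain ⟨c, hc⟩ := CStarAlgebra.nonneg_iff_eq_star_mul_self.1 h2
  have h3 := P.positive c
  rw [← hc, map_sub] at h3
  have h4 : P.φ (algebraMap ℝ A (‖z‖ ^ 2)) = ((‖z‖ ^ 2 : ℝ) : ℂ) := by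
    rw [Algebra.algebraMap_eq_smul_one]
    have : ((‖z‖ ^ 2 : ℝ) • (1 : A)) = (((‖z‖ ^ 2 : ℝ) : ℂ)) • (1 : A) := by
      exact (Complex.coe_smul _ _).symm
    rw [this, map_smul, P.unit]
    simp
  rw [h4] at h3
  have h5 := (Complex.nonneg_iff.1 h3).1
  simp only [Complex.sub_re, Complex.ofReal_re] at h5
  unfold sq
  linarith

theorem sq_add_null (a u : A) (hu : sq P u = 0) : sq P (a + u) = sq P a := by
  have h1 : P.φ (star a * u) = 0 := by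
    have h := cauchy_schwarz P a u
    rw [hu] at h
    simpa using h
  have h2 : P.φ (star u * a) = 0 := by
    have h := cauchy_schwarz P u a
    rw [hu] at h
    simpa using h
  have h3 : (P.φ (star u * u)).re = 0 := hu
  unfold sq
  simp only [star_add, add_mul, mul_add, map_add, h1, h2, Complex.add_re, Complex.zero_re, h3]
  ring

theorem sq_smul (a : A) (r : ℝ) : sq P ((r : ℂ) • a) = r ^ 2 * sq P a := by
  unfold sq
  simp only [star_smul, smul_mul_assoc, mul_smul_comm, map_smul, smul_eq_mul, Complex.star_def,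
    Complex.conj_ofReal, Complex.re_ofReal_mul]
  ring

theorem trace_bound {p u q : A} (hp : p ∈ P.R) (hu : u ∈ P.R) (hq : q ∈ P.R) (hsa : star u = u) :
    ‖P.φ (p * u * q)‖ ≤ Real.sqrt (sq P u) * (‖q‖ * ‖p‖) := by
  have h1 : P.φ (p * u * q) = P.φ (star u * (q * p)) := by
    rw [mul_assoc, P.tracial_R p hp (u * q) (mul_mem hu hq), mul_assoc, hsa]
  rw [h1]
  refine (cauchy_schwarz P _ _).trans (mul_le_mul_of_nonneg_left ?_ (Real.sqrt_nonneg _))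
  calc Real.sqrt (sq P (q * p)) ≤ Real.sqrt (‖q * p‖ ^ 2) := Real.sqrt_le_sqrt (sq_le P _)
    _ = ‖q * p‖ := Real.sqrt_sq (norm_nonneg _)
    _ ≤ _ := norm_mul_le _ _

theorem lower {X₁ Y₁ Z₁ X₃ Y₃ Z₃ : A} (hY₁ : Y₁ ∈ P.R) (hZ₁ : Z₁ ∈ P.R) (hY₃ : Y₃ ∈ P.R)
    (hZ₃ : Z₃ ∈ P.R) (sX₁ : star X₁ = X₁) (sY₁ : star Y₁ = Y₁) (sZ₁ : star Z₁ = Z₁)
    (sX₃ : star X₃ = X₃) (sY₃ : star Y₃ = Y₃) (sZ₃ : star Z₃ = Z₃)
    (nY₁ : ‖Y₁‖ = 3) (nZ₁ : ‖Z₁‖ = 1) (nY₃ : ‖Y₃‖ = 3) (nZ₃ : ‖Z₃‖ = 1)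
    (hXX₁ : P.φ (X₁ * X₁) = 9) (hZZ₁ : P.φ (Z₁ * Z₁) = 1) (hXZ₁ : P.φ (X₁ * Z₁) = 3)
    (hZX₁ : P.φ (Z₁ * X₁) = 3)
    (hXX₃ : P.φ (X₃ * X₃) = 9) (hZZ₃ : P.φ (Z₃ * Z₃) = 1) (hXZ₃ : P.φ (X₃ * Z₃) = 3)
    (hZX₃ : P.φ (Z₃ * X₃) = 3)
    (h₁ : P.φ (Y₁ * Z₁ * Y₁ * Z₁) = 9) (h₃ : P.φ (Y₃ * Z₃ * Y₃ * Z₃) = -9) :
    9 / 2 ≤ sq P (X₁ - X₃) + (sq P (Y₁ - Y₃) + sq P (Z₁ - Z₃)) := by
  have null : ∀ X Z : A, star X = X → star Z = Z → P.φ (X * X) = 9 → P.φ (Z * Z) = 1 →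
      P.φ (X * Z) = 3 → P.φ (Z * X) = 3 → sq P (X - (3 : ℂ) • Z) = 0 := by
    intro X Z sX sZ a b c d
    unfold sq
    have : star (X - (3 : ℂ) • Z) * (X - (3 : ℂ) • Z) =
        X * X - (3 : ℂ) • (X * Z) - (3 : ℂ) • (Z * X) + (9 : ℂ) • (Z * Z) := by
      rw [star_sub, star_smul, sX, sZ]
      have h3 : star (3 : ℂ) = 3 := by simp
      rw [h3, sub_mul, mul_sub, mul_sub, smul_mul_assoc, mul_smul_comm, smul_mul_assoc,
        mul_smul_comm, smul_smul]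
      norm_num
      abel
    rw [this]
    simp only [map_add, map_sub, map_smul, a, b, c, d]
    norm_num
  have n₁ := null X₁ Z₁ sX₁ sZ₁ hXX₁ hZZ₁ hXZ₁ hZX₁
  have n₃ := null X₃ Z₃ sX₃ sZ₃ hXX₃ hZZ₃ hXZ₃ hZX₃
  have n₃' : sq P (((-1 : ℝ) : ℂ) • (X₃ - (3 : ℂ) • Z₃)) = 0 := by rw [sq_smul, n₃]; simp
  have hX : sq P (X₁ - X₃) = 9 * sq P (Z₁ - Z₃) := by
    have e : X₁ - X₃ = (((3 : ℝ) : ℂ) • (Z₁ - Z₃) + (X₁ - (3 : ℂ) • Z₁)) +
        ((-1 : ℝ) : ℂ) • (X₃ - (3 : ℂ) • Z₃) := by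
      push_cast
      simp only [smul_sub, neg_smul, one_smul]
      abel
    rw [e, sq_add_null P _ _ n₃', sq_add_null P _ _ n₁, sq_smul]
    norm_num
  set a := Real.sqrt (sq P (Y₁ - Y₃)) with ha
  set b := Real.sqrt (sq P (Z₁ - Z₃)) with hb
  have ha2 : a ^ 2 = sq P (Y₁ - Y₃) := Real.sq_sqrt (sq_nonneg P _)
  have hb2 : b ^ 2 = sq P (Z₁ - Z₃) := Real.sq_sqrt (sq_nonneg P _)
  have ha0 : 0 ≤ a := Real.sqrt_nonneg _
  have hb0 : 0 ≤ b := Real.sqrt_nonneg _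
  have mY : Y₁ - Y₃ ∈ P.R := sub_mem hY₁ hY₃
  have mZ : Z₁ - Z₃ ∈ P.R := sub_mem hZ₁ hZ₃
  have sY : star (Y₁ - Y₃) = Y₁ - Y₃ := by rw [star_sub, sY₁, sY₃]
  have sZ : star (Z₁ - Z₃) = Z₁ - Z₃ := by rw [star_sub, sZ₁, sZ₃]
  have t1 := trace_bound P (one_mem P.R) mY (mul_mem (mul_mem hZ₁ hY₁) hZ₁) sY
  have t2 := trace_bound P hY₃ mZ (mul_mem hY₁ hZ₁) sZ
  have t3 := trace_bound P (mul_mem hY₃ hZ₃) mY hZ₁ sY
  have t4 := trace_bound P (mul_mem (mul_mem hY₃ hZ₃) hY₃) mZ (one_mem P.R) sZ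
  have hone : ‖(1 : A)‖ ≤ 1 := by
    have : Nontrivial A := by
      refine ⟨⟨1, 0, fun h => ?_⟩⟩
      have := P.unit
      rw [h, map_zero] at this
      exact zero_ne_one this
    rw [norm_one]
  have m2 : ∀ x y : A, ‖x * y‖ ≤ ‖x‖ * ‖y‖ := norm_mul_le
  have tele : P.φ (1 * (Y₁ - Y₃) * (Z₁ * Y₁ * Z₁)) + P.φ (Y₃ * (Z₁ - Z₃) * (Y₁ * Z₁)) +
      P.φ (Y₃ * Z₃ * (Y₁ - Y₃) * Z₁) + P.φ (Y₃ * Z₃ * Y₃ * (Z₁ - Z₃) * 1) = 18 := by
    rw [← map_add, ← map_add, ← map_add]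
    have : 1 * (Y₁ - Y₃) * (Z₁ * Y₁ * Z₁) + Y₃ * (Z₁ - Z₃) * (Y₁ * Z₁) +
        Y₃ * Z₃ * (Y₁ - Y₃) * Z₁ + Y₃ * Z₃ * Y₃ * (Z₁ - Z₃) * 1 =
        Y₁ * Z₁ * Y₁ * Z₁ - Y₃ * Z₃ * Y₃ * Z₃ := by
      noncomm_ring
    rw [this, map_sub, h₁, h₃]
    norm_num
  have hZYZ : ‖Z₁ * Y₁ * Z₁‖ ≤ 3 := by
    calc ‖Z₁ * Y₁ * Z₁‖ ≤ ‖Z₁ * Y₁‖ * ‖Z₁‖ := m2 _ _
      _ ≤ (‖Z₁‖ * ‖Y₁‖) * ‖Z₁‖ := mul_le_mul_of_nonneg_right (m2 _ _) (norm_nonneg _)
      _ = 3 := by rw [nY₁, nZ₁]; norm_num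
  have hYZ₁ : ‖Y₁ * Z₁‖ ≤ 3 := (m2 _ _).trans (by rw [nY₁, nZ₁]; norm_num)
  have hYZ₃ : ‖Y₃ * Z₃‖ ≤ 3 := (m2 _ _).trans (by rw [nY₃, nZ₃]; norm_num)
  have hYZY : ‖Y₃ * Z₃ * Y₃‖ ≤ 9 := by
    calc ‖Y₃ * Z₃ * Y₃‖ ≤ ‖Y₃ * Z₃‖ * ‖Y₃‖ := m2 _ _
      _ ≤ 3 * ‖Y₃‖ := mul_le_mul_of_nonneg_right hYZ₃ (norm_nonneg _)
      _ = 9 := by rw [nY₃]; norm_num
  have b1 : ‖P.φ (1 * (Y₁ - Y₃) * (Z₁ * Y₁ * Z₁))‖ ≤ a * 3 := t1.trans (by
    refine mul_le_mul_of_nonneg_left ?_ ha0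
    calc ‖Z₁ * Y₁ * Z₁‖ * ‖(1 : A)‖ ≤ 3 * 1 := mul_le_mul hZYZ hone (norm_nonneg _) (by norm_num)
      _ = 3 := by norm_num)
  have b2 : ‖P.φ (Y₃ * (Z₁ - Z₃) * (Y₁ * Z₁))‖ ≤ b * 9 := t2.trans (by
    refine mul_le_mul_of_nonneg_left ?_ hb0
    calc ‖Y₁ * Z₁‖ * ‖Y₃‖ ≤ 3 * 3 := mul_le_mul hYZ₁ nY₃.le (norm_nonneg _) (by norm_num)
      _ = 9 := by norm_num)
  have b3 : ‖P.φ (Y₃ * Z₃ * (Y₁ - Y₃) * Z₁)‖ ≤ a * 3 := t3.trans (by
    refine mul_le_mul_of_nonneg_left ?_ ha0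
    calc ‖Z₁‖ * ‖Y₃ * Z₃‖ ≤ 1 * 3 := mul_le_mul nZ₁.le hYZ₃ (norm_nonneg _) (by norm_num)
      _ = 3 := by norm_num)
  have b4 : ‖P.φ (Y₃ * Z₃ * Y₃ * (Z₁ - Z₃) * 1)‖ ≤ b * 9 := t4.trans (by
    refine mul_le_mul_of_nonneg_left ?_ hb0
    calc ‖(1 : A)‖ * ‖Y₃ * Z₃ * Y₃‖ ≤ 1 * 9 := mul_le_mul hone hYZY (norm_nonneg _) (by norm_num)
      _ = 9 := by norm_num)
  have total : (18 : ℝ) ≤ a * 3 + b * 9 + a * 3 + b * 9 := by
    have e : (18 : ℝ) = ‖P.φ (1 * (Y₁ - Y₃) * (Z₁ * Y₁ * Z₁)) + P.φ (Y₃ * (Z₁ - Z₃) * (Y₁ * Z₁)) +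
      P.φ (Y₃ * Z₃ * (Y₁ - Y₃) * Z₁) + P.φ (Y₃ * Z₃ * Y₃ * (Z₁ - Z₃) * 1)‖ := by rw [tele]; simp
    have u1 := norm_add_le (P.φ (1 * (Y₁ - Y₃) * (Z₁ * Y₁ * Z₁)) + P.φ (Y₃ * (Z₁ - Z₃) * (Y₁ * Z₁)) +
      P.φ (Y₃ * Z₃ * (Y₁ - Y₃) * Z₁)) (P.φ (Y₃ * Z₃ * Y₃ * (Z₁ - Z₃) * 1))
    have u2 := norm_add_le (P.φ (1 * (Y₁ - Y₃) * (Z₁ * Y₁ * Z₁)) + P.φ (Y₃ * (Z₁ - Z₃) * (Y₁ * Z₁)))
      (P.φ (Y₃ * Z₃ * (Y₁ - Y₃) * Z₁))
    have u3 := norm_add_le (P.φ (1 * (Y₁ - Y₃) * (Z₁ * Y₁ * Z₁))) (P.φ (Y₃ * (Z₁ - Z₃) * (Y₁ * Z₁)))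
    linarith
  have : 3 ≤ a + 3 * b := by linarith
  rw [hX, ← ha2, ← hb2]
  nlinarith [sq_nonneg P (Y₁ - Y₃), mul_self_nonneg (a - 3 * b), mul_nonneg ha0 hb0]

end General

section Model

open Matrix

open scoped Matrix.Norms.L2Operator

/-- three qubits -/
abbrev I3 : Type := Fin 2 × Fin 2 × Fin 2

def mx : Matrix I3 I3 ℤ := fun i j => if i = j then (if i.1 = 0 then 1 else -1) else 0
def mz : Matrix I3 I3 ℤ := fun i j => if i = j then (if i.2.1 = 0 then 1 else -1) else 0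
def m₁ : Matrix I3 I3 ℤ := fun i j => if i = j then (if i.2.2 = 0 then 1 else -1) else 0
def m₃ : Matrix I3 I3 ℤ := fun i j => if i.1 = j.1 ∧ i.2.1 ≠ j.2.1 ∧ i.2.2 = j.2.2 then 1 else 0
def mf : Matrix I3 I3 ℤ := fun i j => if i.1 ≠ j.1 ∧ i.2.1 = j.2.1 ∧ i.2.2 = j.2.2 then 1 else 0
def vec : I3 → ℤ := fun i => if i.1 = i.2.1 then 1 else 0

theorem xx : mx * mx = 1 := by
  ext i j; rw [Matrix.mul_apply, Matrix.one_apply]; revert i j; decide +kernel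
theorem y11 : m₁ * m₁ = 1 := by
  ext i j; rw [Matrix.mul_apply, Matrix.one_apply]; revert i j; decide +kernel
theorem y33 : m₃ * m₃ = 1 := by
  ext i j; rw [Matrix.mul_apply, Matrix.one_apply]; revert i j; decide +kernel
theorem zz : mz * mz = 1 := by
  ext i j; rw [Matrix.mul_apply, Matrix.one_apply]; revert i j; decide +kernel
theorem xz : mx * mz = mz * mx := by
  ext i j; rw [Matrix.mul_apply, Matrix.mul_apply]; revert i j; decide +kernel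
theorem x1 : mx * m₁ = m₁ * mx := by
  ext i j; rw [Matrix.mul_apply, Matrix.mul_apply]; revert i j; decide +kernel
theorem x3 : mx * m₃ = m₃ * mx := by
  ext i j; rw [Matrix.mul_apply, Matrix.mul_apply]; revert i j; decide +kernel
theorem fz : mf * mz = mz * mf := by
  ext i j; rw [Matrix.mul_apply, Matrix.mul_apply]; revert i j; decide +kernel
theorem f1 : mf * m₁ = m₁ * mf := by
  ext i j; rw [Matrix.mul_apply, Matrix.mul_apply]; revert i j; decide +kernel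
theorem f3 : mf * m₃ = m₃ * mf := by
  ext i j; rw [Matrix.mul_apply, Matrix.mul_apply]; revert i j; decide +kernel
theorem z1 : mz * m₁ = m₁ * mz := by
  ext i j; rw [Matrix.mul_apply, Matrix.mul_apply]; revert i j; decide +kernel
theorem y31 : m₃ * m₁ = m₁ * m₃ := by
  ext i j; rw [Matrix.mul_apply, Matrix.mul_apply]; revert i j; decide +kernel
theorem zy3 : mz * m₃ = -(m₃ * mz) := by
  ext i j; rw [Matrix.neg_apply, Matrix.mul_apply, Matrix.mul_apply]; revert i j; decide +kernel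
theorem tx : mxᵀ = mx := by
  have h : ∀ i j : I3, (0 : ℤ) + mx j i = 0 + mx i j := by decide +kernel
  ext i j; simpa using h i j
theorem tz : mzᵀ = mz := by
  have h : ∀ i j : I3, (0 : ℤ) + mz j i = 0 + mz i j := by decide +kernel
  ext i j; simpa using h i j
theorem t1 : m₁ᵀ = m₁ := by
  have h : ∀ i j : I3, (0 : ℤ) + m₁ j i = 0 + m₁ i j := by decide +kernel
  ext i j; simpa using h i j
theorem t3 : m₃ᵀ = m₃ := by
  have h : ∀ i j : I3, (0 : ℤ) + m₃ j i = 0 + m₃ i j := by decide +kernel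
  ext i j; simpa using h i j
theorem tf : mfᵀ = mf := by
  have h : ∀ i j : I3, (0 : ℤ) + mf j i = 0 + mf i j := by decide +kernel
  ext i j; simpa using h i j
theorem xv : mx *ᵥ vec = mz *ᵥ vec := by
  funext i; show ∑ j, mx i j * vec j = ∑ j, mz i j * vec j; revert i; decide +kernel
theorem fv : mf *ᵥ vec = m₃ *ᵥ vec := by
  funext i; show ∑ j, mf i j * vec j = ∑ j, m₃ i j * vec j; revert i; decide +kernel
theorem ev1 : vec ⬝ᵥ (1 : Matrix I3 I3 ℤ) *ᵥ vec = 4 := by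
  rw [Matrix.one_mulVec]; show ∑ i, vec i * vec i = 4; decide +kernel
theorem evx : vec ⬝ᵥ mx *ᵥ vec = 0 := by
  show ∑ i, vec i * ∑ j, mx i j * vec j = 0; decide +kernel
theorem evy1 : vec ⬝ᵥ m₁ *ᵥ vec = 0 := by
  show ∑ i, vec i * ∑ j, m₁ i j * vec j = 0; decide +kernel
theorem evy3 : vec ⬝ᵥ m₃ *ᵥ vec = 0 := by
  show ∑ i, vec i * ∑ j, m₃ i j * vec j = 0; decide +kernel
theorem evxy1 : vec ⬝ᵥ (mx * m₁) *ᵥ vec = 0 := by
  rw [← Matrix.mulVec_mulVec]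
  show ∑ i, vec i * ∑ j, mx i j * ∑ k, m₁ j k * vec k = 0; decide +kernel
theorem evxy3 : vec ⬝ᵥ (mx * m₃) *ᵥ vec = 0 := by
  rw [← Matrix.mulVec_mulVec]
  show ∑ i, vec i * ∑ j, mx i j * ∑ k, m₃ j k * vec k = 0; decide +kernel

/-- integer matrices as complex matrices -/
noncomputable def c : Matrix I3 I3 ℤ →+* Matrix I3 I3 ℂ := (Int.castRingHom ℂ).mapMatrix

theorem c_apply (M : Matrix I3 I3 ℤ) (i j : I3) : c M i j = ((M i j : ℤ) : ℂ) := rfl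

theorem star_c (M : Matrix I3 I3 ℤ) (h : Mᵀ = M) : star (c M) = c M := by
  ext i j
  rw [Matrix.star_apply, c_apply, c_apply]
  have : M j i = M i j := congrFun (congrFun h i) j
  rw [this]
  simp

/-- the vector `∑ e_a ⊗ e_a ⊗ e_c` -/
noncomputable def cv : I3 → ℂ := fun i => ((vec i : ℤ) : ℂ)

theorem c_mulVec (M : Matrix I3 I3 ℤ) (w : I3 → ℤ) :
    c M *ᵥ (fun i => ((w i : ℤ) : ℂ)) = fun i => (((M *ᵥ w) i : ℤ) : ℂ) := by
  funext i
  simp [Matrix.mulVec, dotProduct, c_apply]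

/-- the vector state -/
noncomputable def ψ : Matrix I3 I3 ℂ →ₗ[ℂ] ℂ where
  toFun M := (1 / 4 : ℂ) * (star cv ⬝ᵥ M *ᵥ cv)
  map_add' M N := by rw [Matrix.add_mulVec, dotProduct_add]; ring
  map_smul' r M := by rw [Matrix.smul_mulVec, dotProduct_smul]; simp; ring

theorem ψ_apply (M : Matrix I3 I3 ℂ) : ψ M = (1 / 4 : ℂ) * (star cv ⬝ᵥ M *ᵥ cv) := rfl

theorem ψ_c (M : Matrix I3 I3 ℤ) : ψ (c M) = (1 / 4 : ℂ) * ((vec ⬝ᵥ M *ᵥ vec : ℤ) : ℂ) := by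
  rw [ψ_apply]
  have : c M *ᵥ cv = fun i => (((M *ᵥ vec) i : ℤ) : ℂ) := c_mulVec M vec
  rw [this]
  simp [dotProduct, cv]

theorem ψ_pos (a : Matrix I3 I3 ℂ) : 0 ≤ ψ (star a * a) := by
  rw [ψ_apply]
  have h : star cv ⬝ᵥ (star a * a) *ᵥ cv = star (a *ᵥ cv) ⬝ᵥ (a *ᵥ cv) := by
    rw [← Matrix.mulVec_mulVec, Matrix.dotProduct_mulVec, Matrix.star_eq_conjTranspose,
      Matrix.star_mulVec]
  rw [h]
  have h2 : 0 ≤ star (a *ᵥ cv) ⬝ᵥ (a *ᵥ cv) := dotProduct_star_self_nonneg _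
  exact mul_nonneg (by norm_num [Complex.nonneg_iff]) h2

/-- `g` self-adjoint, `g' cv = g cv` and `g'` commutes with `s`: then `ψ (g s) = ψ (s g)` -/
theorem ψ_swap {g g' s : Matrix I3 I3 ℂ} (hg : star g = g) (hg' : star g' = g')
    (hv : g' *ᵥ cv = g *ᵥ cv) (hs : g' * s = s * g') : ψ (g * s) = ψ (s * g) := by
  rw [ψ_apply, ψ_apply]
  congr 1
  have e1 : star cv ⬝ᵥ (g * s) *ᵥ cv = star (g *ᵥ cv) ⬝ᵥ (s *ᵥ cv) := by
    rw [← Matrix.mulVec_mulVec, Matrix.dotProduct_mulVec, Matrix.star_mulVec,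
      ← Matrix.star_eq_conjTranspose, hg]
  have e2 : star cv ⬝ᵥ (g' * s) *ᵥ cv = star (g' *ᵥ cv) ⬝ᵥ (s *ᵥ cv) := by
    rw [← Matrix.mulVec_mulVec, Matrix.dotProduct_mulVec, Matrix.star_mulVec,
      ← Matrix.star_eq_conjTranspose, hg']
  rw [e1, ← hv, ← e2, hs, ← Matrix.mulVec_mulVec, ← Matrix.mulVec_mulVec, hv]

/-- the left algebra -/
noncomputable def LL : StarSubalgebra ℂ (Matrix I3 I3 ℂ) := StarAlgebra.adjoin ℂ {c mx}
/-- the right algebra -/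
noncomputable def RR : StarSubalgebra ℂ (Matrix I3 I3 ℂ) := StarAlgebra.adjoin ℂ {c mz, c m₁, c m₃}

theorem closed_fin (S : StarSubalgebra ℂ (Matrix I3 I3 ℂ)) : IsClosed (S : Set (Matrix I3 I3 ℂ)) :=
  Submodule.closed_of_finiteDimensional (Subalgebra.toSubmodule S.toSubalgebra)

theorem comm_gen {T : Set (Matrix I3 I3 ℂ)} {g : Matrix I3 I3 ℂ} (hg : star g = g)
    (h : ∀ t ∈ T, g * t = t * g) {r : Matrix I3 I3 ℂ} (hr : r ∈ StarAlgebra.adjoin ℂ T) :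
    g * r = r * g := by
  have : StarAlgebra.adjoin ℂ T ≤ StarSubalgebra.centralizer ℂ {g} := by
    refine StarAlgebra.adjoin_le ?_
    intro t ht
    rw [SetLike.mem_coe, StarSubalgebra.mem_centralizer_iff]
    intro z hz
    rw [Set.mem_singleton_iff] at hz
    subst hz
    exact ⟨h t ht, by rw [hg]; exact h t ht⟩
  have := this hr
  rw [StarSubalgebra.mem_centralizer_iff] at this
  exact (this g rfl).1

theorem tracial_gen {T : Set (Matrix I3 I3 ℂ)}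
    (h : ∀ t ∈ T, ∀ s ∈ StarAlgebra.adjoin ℂ T, ψ (t * s) = ψ (s * t))
    {r : Matrix I3 I3 ℂ} (hr : r ∈ StarAlgebra.adjoin ℂ T) :
    ∀ s ∈ StarAlgebra.adjoin ℂ T, ψ (r * s) = ψ (s * r) := by
  induction hr using StarAlgebra.adjoin_induction with
  | mem x hx => exact h x hx
  | algebraMap k => intro s _; rw [Algebra.commutes]
  | add x y hx hy ihx ihy =>
    intro s hs
    rw [add_mul, mul_add, map_add, map_add, ihx s hs, ihy s hs]
  | mul x y hx hy ihx ihy =>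
    intro s hs
    rw [mul_assoc, ihx _ (mul_mem hy hs), mul_assoc, ihy _ (mul_mem hs hx), mul_assoc]
  | star x hx ih =>
    intro s hs
    have hconj : ∀ a : Matrix I3 I3 ℂ, ψ (star a) = star (ψ a) := by
      intro a
      rw [ψ_apply, ψ_apply, star_mul', Matrix.star_dotProduct, star_mulVec, ← Matrix.dotProduct_mulVec]
      simp [Matrix.star_eq_conjTranspose]
    have e1 : star x * s = star (star s * x) := by rw [star_mul, star_star]
    have e2 : s * star x = star (x * star s) := by rw [star_mul, star_star]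
    rw [e1, e2, hconj, hconj, ih (star s) (star_mem hs)]

theorem cX (M N : Matrix I3 I3 ℤ) (h : M * N = N * M) : c M * c N = c N * c M := by
  rw [← map_mul, h, map_mul]

theorem c_cv {M N : Matrix I3 I3 ℤ} (h : M *ᵥ vec = N *ᵥ vec) : c M *ᵥ cv = c N *ᵥ cv := by
  have h1 : c M *ᵥ cv = fun i => (((M *ᵥ vec) i : ℤ) : ℂ) := c_mulVec M vec
  have h2 : c N *ᵥ cv = fun i => (((N *ᵥ vec) i : ℤ) : ℂ) := c_mulVec N vec
  rw [h1, h2, h]

/-- the space -/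
noncomputable def sp : BiSpace (Matrix I3 I3 ℂ) where
  L := LL
  R := RR
  φ := ψ
  closed_L := closed_fin _
  closed_R := closed_fin _
  commute x hx y hy := by
    have h1 : ∀ r ∈ RR, c mx * r = r * c mx := by
      intro r hr
      refine comm_gen (star_c _ tx) ?_ hr
      intro t ht
      simp only [Set.mem_insert_iff, Set.mem_singleton_iff] at ht
      rcases ht with rfl | rfl | rfl
      · exact cX _ _ xz
      · exact cX _ _ x1
      · exact cX _ _ x3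
    have : LL ≤ StarSubalgebra.centralizer ℂ (RR : Set (Matrix I3 I3 ℂ)) := by
      refine StarAlgebra.adjoin_le ?_
      intro t ht
      rw [Set.mem_singleton_iff] at ht
      subst ht
      rw [SetLike.mem_coe, StarSubalgebra.mem_centralizer_iff]
      intro z hz
      exact ⟨(h1 z hz).symm, (h1 _ (star_mem hz)).symm⟩
    have := this hx
    rw [StarSubalgebra.mem_centralizer_iff] at this
    exact (this y hy).1.symm
  unit := by
    have := ψ_c 1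
    rw [map_one, ev1] at this
    rw [this]; norm_num
  positive := ψ_pos
  tracial_L x hx := by
    refine tracial_gen ?_ hx
    intro t ht s hs
    rw [Set.mem_singleton_iff] at ht
    subst ht
    rw [comm_gen (star_c _ tx) ?_ hs]
    intro t ht
    rw [Set.mem_singleton_iff] at ht
    rw [ht]
  tracial_R x hx := by
    refine tracial_gen ?_ hx
    intro t ht s hs
    simp only [Set.mem_insert_iff, Set.mem_singleton_iff] at ht
    rcases ht with rfl | rfl | rfl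
    · refine ψ_swap (g' := c mx) (star_c _ tz) (star_c _ tx) (c_cv xv) (comm_gen (star_c _ tx) ?_ hs)
      intro t ht
      simp only [Set.mem_insert_iff, Set.mem_singleton_iff] at ht
      rcases ht with rfl | rfl | rfl
      · exact cX _ _ xz
      · exact cX _ _ x1
      · exact cX _ _ x3
    · rw [comm_gen (star_c _ t1) ?_ hs]
      intro t ht
      simp only [Set.mem_insert_iff, Set.mem_singleton_iff] at ht
      rcases ht with rfl | rfl | rfl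
      · exact cX _ _ z1.symm
      · rfl
      · exact cX _ _ y31.symm
    · refine ψ_swap (g' := c mf) (star_c _ t3) (star_c _ tf) (c_cv fv) (comm_gen (star_c _ tf) ?_ hs)
      intro t ht
      simp only [Set.mem_insert_iff, Set.mem_singleton_iff] at ht
      rcases ht with rfl | rfl | rfl
      · exact cX _ _ fz
      · exact cX _ _ f1
      · exact cX _ _ f3

theorem mem_x : c mx ∈ LL := StarAlgebra.self_mem_adjoin_singleton _ _
theorem mem_z : c mz ∈ RR := StarAlgebra.subset_adjoin _ _ (by simp)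
theorem mem_1 : c m₁ ∈ RR := StarAlgebra.subset_adjoin _ _ (by simp)
theorem mem_3 : c m₃ ∈ RR := StarAlgebra.subset_adjoin _ _ (by simp)

theorem star_three (M : Matrix I3 I3 ℂ) (h : star M = M) : star ((3 : ℂ) • M) = (3 : ℂ) • M := by
  rw [star_smul, h]
  simp

/-- the systems `(3 mx; 3 y, z)` -/
noncomputable def sys (y z : Matrix I3 I3 ℂ) (hy : y ∈ RR) (hz : z ∈ RR) (sy : star y = y)
    (sz : star z = z) : SystemIn 1 2 sp where
  X _ := (3 : ℂ) • c mx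
  Y := ![(3 : ℂ) • y, z]
  X_mem _ := SMulMemClass.smul_mem _ mem_x
  Y_mem j := by
    fin_cases j
    · exact SMulMemClass.smul_mem _ hy
    · exact hz
  X_sa _ := star_three _ (star_c _ tx)
  Y_sa j := by
    fin_cases j
    · exact star_three _ sy
    · exact sz

noncomputable def s₁ : SystemIn 1 2 sp := sys (c m₁) (c mz) mem_1 mem_z (star_c _ t1) (star_c _ tz)
noncomputable def s₃ : SystemIn 1 2 sp := sys (c m₃) (c mz) mem_3 mem_z (star_c _ t3) (star_c _ tz)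
noncomputable def s₂ : SystemIn 1 2 sp :=
  sys (c m₁) 0 mem_1 (zero_mem _) (star_c _ t1) (star_zero _)
noncomputable def s₂' : SystemIn 1 2 sp :=
  sys (c m₃) 0 mem_3 (zero_mem _) (star_c _ t3) (star_zero _)

theorem copy_refl {A : Type} [CStarAlgebra A] {P : BiSpace A} (S : SystemIn n m P) : Copy S S :=
  ⟨fun _ => rfl, fun _ => rfl, fun _ => rfl⟩

/-- the words in `3 mx`, `3 y`, `0` are multiples of `mx ^ p * y ^ q` -/
theorem words (w : List (Fin 1 ⊕ Fin 2)) : ∃ (k : ℂ) (p q : ℕ),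
    (w.map (Sum.elim s₂.X s₂.Y)).prod = k • (c (mx ^ p * m₁ ^ q)) ∧
    (w.map (Sum.elim s₂'.X s₂'.Y)).prod = k • (c (mx ^ p * m₃ ^ q)) := by
  induction w with
  | nil => exact ⟨1, 0, 0, by simp, by simp⟩
  | cons a w ih =>
    obtain ⟨k, p, q, h1, h2⟩ := ih
    simp only [List.map_cons, List.prod_cons, h1, h2]
    rcases a with a | a
    · refine ⟨3 * k, p + 1, q, ?_, ?_⟩
      · show ((3 : ℂ) • c mx) * _ = _
        rw [smul_mul_smul_comm, ← map_mul, ← mul_assoc, ← pow_succ']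
      · show ((3 : ℂ) • c mx) * _ = _
        rw [smul_mul_smul_comm, ← map_mul, ← mul_assoc, ← pow_succ']
    · fin_cases a
      · refine ⟨3 * k, p, q + 1, ?_, ?_⟩
        · show ((3 : ℂ) • c m₁) * _ = _
          have : m₁ * (mx ^ p * m₁ ^ q) = mx ^ p * m₁ ^ (q + 1) := by
            have hc : Commute m₁ (mx ^ p) := (Commute.pow_right (x1.symm : Commute m₁ mx) p)
            rw [← mul_assoc, hc.eq, mul_assoc, ← pow_succ']
          rw [smul_mul_smul_comm, ← map_mul, this]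
        · show ((3 : ℂ) • c m₃) * _ = _
          have : m₃ * (mx ^ p * m₃ ^ q) = mx ^ p * m₃ ^ (q + 1) := by
            have hc : Commute m₃ (mx ^ p) := (Commute.pow_right (x3.symm : Commute m₃ mx) p)
            rw [← mul_assoc, hc.eq, mul_assoc, ← pow_succ']
          rw [smul_mul_smul_comm, ← map_mul, this]
      · refine ⟨0, 0, 0, ?_, ?_⟩
        · show (0 : Matrix I3 I3 ℂ) * _ = _
          simp
        · show (0 : Matrix I3 I3 ℂ) * _ = _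
          simp

theorem pow_par (M : Matrix I3 I3 ℤ) (h : M * M = 1) (p : ℕ) : M ^ p = M ^ (p % 2) := by
  conv_lhs => rw [← Nat.mod_add_div p 2]
  rw [pow_add, pow_mul, pow_two, h, one_pow, mul_one]

theorem ev_eq (p q : ℕ) : ψ (c (mx ^ p * m₁ ^ q)) = ψ (c (mx ^ p * m₃ ^ q)) := by
  rw [pow_par mx xx p, pow_par m₁ y11 q, pow_par m₃ y33 q]
  rcases Nat.mod_two_eq_zero_or_one p with hp | hp <;>
  rcases Nat.mod_two_eq_zero_or_one q with hq | hq <;> rw [hp, hq]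
  · simp
  · simp only [pow_zero, pow_one, one_mul]
    rw [ψ_c, ψ_c, evy1, evy3]
  · simp
  · simp only [pow_one]
    rw [ψ_c, ψ_c, evxy1, evxy3]

theorem norm_of_sq {M : Matrix I3 I3 ℤ} (h : M * M = 1) (ht : Mᵀ = M) : ‖c M‖ = 1 := by
  have h1 : ‖star (c M) * c M‖ = ‖c M‖ * ‖c M‖ := CStarRing.norm_star_mul_self
  rw [star_c _ ht, ← map_mul, h, map_one, norm_one] at h1
  have h0 := norm_nonneg (c M)
  nlinarith

theorem norm_three (M : Matrix I3 I3 ℂ) (h : ‖M‖ = 1) : ‖(3 : ℂ) • M‖ = 3 := by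
  rw [norm_smul, h]; simp

theorem copy₂ : Copy s₂' s₂ := by
  refine ⟨?_, fun i => rfl, ?_⟩
  · intro w
    obtain ⟨k, p, q, h1, h2⟩ := words w
    show ψ _ = ψ _
    rw [h1, h2, map_smul, map_smul, ev_eq]
  · intro j
    fin_cases j
    · show ‖(3 : ℂ) • c m₃‖ = ‖(3 : ℂ) • c m₁‖
      rw [norm_three _ (norm_of_sq y33 t3), norm_three _ (norm_of_sq y11 t1)]
    · rfl

/-- a system in `sp` as a system with its space -/
noncomputable def bund (S : SystemIn 1 2 sp) : BiSystem 1 2 := ⟨Matrix I3 I3 ℂ, sp, S⟩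

theorem sq_zero {A : Type} [CStarAlgebra A] (P : BiSpace A) : sq P 0 = 0 := by simp [sq]

theorem sq_z : sq sp (c mz) = 1 := by
  unfold sq
  rw [star_c _ tz, ← map_mul, zz]
  show (ψ (c 1)).re = 1
  rw [ψ_c, ev1]; norm_num

theorem cost_aux (S T : SystemIn 1 2 sp) (hX : S.X 0 = T.X 0) (hY : S.Y 0 = T.Y 0)
    (hZ : sq sp (S.Y 1 - T.Y 1) = 1) :
    Real.sqrt (∑ i, sq sp (S.X i - T.X i) + ∑ j, sq sp (S.Y j - T.Y j)) = 1 := by
  rw [Fin.sum_univ_one, Fin.sum_univ_two, hX, hY, sub_self, sub_self, sq_zero, hZ]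
  simp

theorem cost₁₂ : (1 : ℝ) ∈ costs (bund s₁) (bund s₂) := by
  refine ⟨Matrix I3 I3 ℂ, inferInstance, sp, s₁, s₂, copy_refl _, copy_refl _, ?_⟩
  refine (cost_aux s₁ s₂ rfl rfl ?_).symm
  show sq sp (c mz - 0) = 1
  rw [sub_zero, sq_z]

theorem cost₂₃ : (1 : ℝ) ∈ costs (bund s₂) (bund s₃) := by
  refine ⟨Matrix I3 I3 ℂ, inferInstance, sp, s₂', s₃, copy₂, copy_refl _, ?_⟩
  refine (cost_aux s₂' s₃ rfl rfl ?_).symm
  show sq sp (0 - c mz) = 1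
  have : (0 : Matrix I3 I3 ℂ) - c mz = ((-1 : ℝ) : ℂ) • c mz := by simp
  rw [this, sq_smul, sq_z]
  norm_num

theorem cost₁₃ : (costs (bund s₁) (bund s₃)).Nonempty :=
  ⟨_, Matrix I3 I3 ℂ, inferInstance, sp, s₁, s₃, copy_refl _, copy_refl _, rfl⟩

theorem bdd (S T : BiSystem n m) : BddBelow (costs S T) := by
  refine ⟨0, ?_⟩
  rintro c ⟨A, _, P, T₁, T₂, -, -, rfl⟩
  exact Real.sqrt_nonneg _

/-- the moments used below -/
theorem moments (y : Matrix I3 I3 ℤ) (hy : c y ∈ RR) (sy : star (c y) = c y) (r : ℤ)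
    (hr : y * mz * y * mz = r • 1) (S : SystemIn 1 2 sp)
    (hS : S = sys (c y) (c mz) hy mem_z sy (star_c _ tz)) :
    dist S [Sum.inl 0, Sum.inl 0] = 9 ∧ dist S [Sum.inr 1, Sum.inr 1] = 1 ∧
    dist S [Sum.inl 0, Sum.inr 1] = 3 ∧ dist S [Sum.inr 1, Sum.inl 0] = 3 ∧
    dist S [Sum.inr 0, Sum.inr 1, Sum.inr 0, Sum.inr 1] = 9 * (r : ℂ) := by
  subst hS
  have hxz : ψ (c (mx * mz)) = 1 := by
    rw [ψ_c, ← Matrix.mulVec_mulVec, ← xv, Matrix.mulVec_mulVec, xx, ev1]; norm_num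
  refine ⟨?_, ?_, ?_, ?_, ?_⟩
  · show ψ (((3 : ℂ) • c mx) * (((3 : ℂ) • c mx) * 1)) = 9
    rw [mul_one, smul_mul_smul_comm, ← map_mul, xx, map_smul, ψ_c, ev1]; norm_num
  · show ψ (c mz * (c mz * 1)) = 1
    rw [mul_one, ← map_mul, zz, ψ_c, ev1]; norm_num
  · show ψ (((3 : ℂ) • c mx) * (c mz * 1)) = 3
    rw [mul_one, smul_mul_assoc, ← map_mul, map_smul, hxz]; norm_num
  · show ψ (c mz * (((3 : ℂ) • c mx) * 1)) = 3
    rw [mul_one, mul_smul_comm, ← map_mul, ← xz, map_smul, hxz]; norm_num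
  · show ψ (((3 : ℂ) • c y) * (c mz * (((3 : ℂ) • c y) * (c mz * 1)))) = 9 * (r : ℂ)
    have : ((3 : ℂ) • c y) * (c mz * (((3 : ℂ) • c y) * (c mz * 1))) =
        (9 : ℂ) • c (y * mz * y * mz) := by
      simp only [mul_one, smul_mul_assoc, mul_smul_comm, smul_smul, map_mul, mul_assoc]
      norm_num
    rw [this, hr, map_smul, map_zsmul, map_zsmul, ψ_c, ev1]
    simp

theorem r₁ : m₁ * mz * m₁ * mz = (1 : ℤ) • 1 := by
  rw [mul_assoc m₁ mz, z1, ← mul_assoc, y11, one_mul, zz, one_smul]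

theorem r₃ : m₃ * mz * m₃ * mz = (-1 : ℤ) • 1 := by
  rw [mul_assoc m₃ mz, zy3, mul_neg, ← mul_assoc, y33, one_mul, neg_mul, zz]
  simp

theorem lower₁₃ : Real.sqrt (9 / 2) ≤ W₂ (bund s₁) (bund s₃) := by
  refine le_csInf cost₁₃ ?_
  rintro x ⟨A, _, P, T₁, T₃, ⟨d₁, nX₁, nY₁⟩, ⟨d₃, nX₃, nY₃⟩, rfl⟩
  refine Real.sqrt_le_sqrt ?_
  rw [Fin.sum_univ_one, Fin.sum_univ_two]
  obtain ⟨a1, a2, a3, a4, a5⟩ := moments m₁ mem_1 (star_c _ t1) 1 r₁ s₁ rfl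
  obtain ⟨b1, b2, b3, b4, b5⟩ := moments m₃ mem_3 (star_c _ t3) (-1) r₃ s₃ rfl
  have d₁' : ∀ w, dist T₁ w = dist s₁ w := d₁
  have d₃' : ∀ w, dist T₃ w = dist s₃ w := d₃
  rw [← d₁'] at a1 a2 a3 a4 a5
  rw [← d₃'] at b1 b2 b3 b4 b5
  simp only [dist, List.map_cons, List.map_nil, List.prod_cons, List.prod_nil, Sum.elim_inl,
    Sum.elim_inr, mul_one] at a1 a2 a3 a4 a5 b1 b2 b3 b4 b5
  have e1 : ‖T₁.Y 0‖ = 3 := (nY₁ 0).trans (norm_three _ (norm_of_sq y11 t1))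
  have e2 : ‖T₁.Y 1‖ = 1 := (nY₁ 1).trans (norm_of_sq zz tz)
  have e3 : ‖T₃.Y 0‖ = 3 := (nY₃ 0).trans (norm_three _ (norm_of_sq y33 t3))
  have e4 : ‖T₃.Y 1‖ = 1 := (nY₃ 1).trans (norm_of_sq zz tz)
  refine lower P (T₁.Y_mem 0) (T₁.Y_mem 1) (T₃.Y_mem 0) (T₃.Y_mem 1) (T₁.X_sa 0) (T₁.Y_sa 0)
    (T₁.Y_sa 1) (T₃.X_sa 0) (T₃.Y_sa 0) (T₃.Y_sa 1) e1 e2 e3 e4 a1 a2 a3 a4 b1 b2 b3 b4 ?_ ?_
  · rw [mul_assoc, mul_assoc, a5]; norm_num
  · rw [mul_assoc, mul_assoc, b5]; norm_num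

end Model

/-- **The bi-free Wasserstein distance `W₂` does not satisfy the triangle inequality**: there are
tracially bi-partite systems `S₁`, `S₂`, `S₃` with one left and two right variables (in a C*-algebra of
matrices) such that `W₂(S₁, S₃) > W₂(S₁, S₂) + W₂(S₂, S₃)`.  (The three infima are over nonempty sets.) -/
theorem result : ∃ S₁ S₂ S₃ : BiSystem 1 2,
    (costs S₁ S₂).Nonempty ∧ (costs S₂ S₃).Nonempty ∧ (costs S₁ S₃).Nonempty ∧
      W₂ S₁ S₂ + W₂ S₂ S₃ < W₂ S₁ S₃ := by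
  refine ⟨bund s₁, bund s₂, bund s₃, ⟨_, cost₁₂⟩, ⟨_, cost₂₃⟩, cost₁₃, ?_⟩
  have h1 : W₂ (bund s₁) (bund s₂) ≤ 1 := csInf_le (bdd _ _) cost₁₂
  have h2 : W₂ (bund s₂) (bund s₃) ≤ 1 := csInf_le (bdd _ _) cost₂₃
  have h3 := lower₁₃
  have h4 : (2 : ℝ) < Real.sqrt (9 / 2) := by
    rw [Real.lt_sqrt (by norm_num)]; norm_num
  linarith

end Pool.Agent.Results.MP_fc6efe_an.TriangleFails
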